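import Pool.Agent.U456.IZ.Gen
import Pool.Agent.U456.IZ.Graph
import Pool.Agent.U456.IZ.Bot

/-!
# Tails of the integrals for `ζ(n)`, `n` odd, over the field of the even tails

For an integer `k ≥ 2`, `ω = exp(2πi/k)` and `x ≥ 0` let
`R_k(x) = (-1)^k / k! ∫ (∑_j ω^j log t_j)^k exp(-∑_j t_j) dt`, the integral being over the points of the
octant `(0, ∞)^k` with `max t_j ≥ x`. This number is real and `R_k(0) = ζ(k)`, the integral over the
octant.

Call a field `F` of real numbers simultaneously Liouville if for any finitely many elements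
`x_1, …, x_m` of `F` and any `w` there are arbitrarily large `q` with `‖q x_i‖ < q ^ (-w)` for all
`i`. The field `ℚ` is one, and there are uncountable ones, see the statement.

For such a field `F` let `E` be the field generated over `F` by `e` and by all the numbers `R_j(y)` with
`j ≥ 2` even and `y ≥ 0` rational. In particular `ζ(j)` for even `j`, and so `π ^ 2`, lie in `E`.

It is proved that for every odd number `n ≥ 3` with at most one exception `n_0` there is at most one
rational number `x ≥ 0` for which `R_n(x)` is algebraic over `E`, and that there are at most two such `x` for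
`n = n_0`. So for every odd `n ≥ 3` different from `n_0` there is at most one rational number `x ≥ 0` for which
one of the numbers `R_{2n}(y) / R_n(x) ^ 2`, `y ≥ 0` rational, is nonzero and rational (or algebraic
over `F(e)`). The question, for all odd `n ≥ 3`, is whether this is so for `x = y = 0`.

The proof uses the formula of `Pool.Agent.R352.Q` for `ζ(k) - R_k(x)` as a polynomial in values of
E-functions, the measure of algebraic independence for these values
(`Pool.Agent.N743.SS.measM_EE`, a quantitative form of Shidlovskii's theorem), the file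
`Pool/Agent/U456/IZ/Liou.lean` (a polynomial measure of algebraic independence gives algebraic
independence over every simultaneously Liouville field), the matroid of algebraic independence
over `F` and Euler's theorem on `ζ(2n)`: the even tails with a given finite set of pairs `(j, y)`, `y > 0`,
and the numbers `ζ(j)` together need only one generator more than the number of these pairs.
-/

set_option autoImplicit false

namespace Pool.Agent.Results.MP_f1a024_nt.AllButOneTail

open Filter Topology MeasureTheory Pool.Agent.Q163.LE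

/-- `(∑_j ω^j log t_j)^k exp(-∑_j t_j)`, `ω = exp(2πi/k)` -/
noncomputable def integrand (k : ℕ) (t : Fin k → ℝ) : ℂ :=
  (∑ j : Fin k, Complex.exp (2 * Real.pi * Complex.I / k) ^ (j : ℕ) * (Real.log (t j) : ℂ)) ^ k *
    ((Real.exp (-∑ j, t j) : ℝ) : ℂ)

/-- the points of the octant with a coordinate at least `x` -/
def rest (k : ℕ) (x : ℝ) : Set (Fin k → ℝ) := {t | (∀ j, 0 < t j) ∧ ∃ j, x ≤ t j}

/-- `R_k(x)`, as a complex number -/
noncomputable def tail (k : ℕ) (x : ℝ) : ℂ :=
  (-1) ^ k / k.factorial * ∫ t in rest k x, integrand k t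

/-- `R_k(x)`, as a real number -/
noncomputable def R (k : ℕ) (x : ℝ) : ℝ := (tail k x).re

/-- the field generated by all real numbers `x` such that, for some base `b`,
`phrases b x N / log N` tends to `0` as `N` tends to infinity in `S` -/
noncomputable def field (S : Set ℕ) : Subfield ℝ := Subfield.closure {x : ℝ | ∃ b : ℕ, 2 ≤ b ∧
  Tendsto (fun N : ℕ => (phrases b x N : ℝ) / Real.log N) (atTop ⊓ 𝓟 S) (𝓝 0)}

/-- the numbers `R_j(y)` with `j ≥ 2` even and `y ≥ 0` rational -/
def evenTails : Set ℝ := {w | ∃ j : ℕ, Even j ∧ 2 ≤ j ∧ ∃ y : ℚ, 0 ≤ y ∧ w = R j y}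

/-- `z` is algebraic over the field generated over `F` by `e` and the even tails, equivalently over the
ring generated by them -/
def AlgebraicOverE (F : Subfield ℝ) (z : ℝ) : Prop :=
  IsAlgebraic (Algebra.adjoin F (insert (Real.exp 1) evenTails)) z

/-- `z` is algebraic over `F(e)`, equivalently over the ring `F[e]` -/
def AlgebraicOverFE (F : Subfield ℝ) (z : ℝ) : Prop :=
  IsAlgebraic (Algebra.adjoin F ({Real.exp 1} : Set ℝ)) z

/-- one of the numbers `R_{2n}(y) / R_n(x) ^ 2`, `y ≥ 0` rational, is nonzero and algebraic over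
`F(e)` -/
def AlgebraicRatio (F : Subfield ℝ) (n : ℕ) (x : ℚ) : Prop :=
  ∃ y : ℚ, 0 ≤ y ∧ R (2 * n) y / R n x ^ 2 ≠ 0 ∧ AlgebraicOverFE F (R (2 * n) y / R n x ^ 2)

/-- **For all odd `n ≥ 3` but at most one, `R_n(x)` is algebraic over `E` for at most one rational
`x ≥ 0`.** -/
theorem result :
    -- examples of simultaneously Liouville fields, `⊥` is the field of rational numbers
    SimLiouville (⊥ : Subfield ℝ) ∧
    (∀ (T : ℕ → ℝ) (hT : Tendsto T atTop atTop), SimLiouville (ApField T hT)) ∧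
    (∀ S : Set ℕ, S.Infinite → SimLiouville (field S)) ∧
    -- the numbers `R_k(x)`
    (∀ k : ℕ, 2 ≤ k → (∀ x : ℝ, 0 ≤ x → tail k x = (R k x : ℂ)) ∧
      R k 0 = ∑' n : ℕ, 1 / ((n : ℝ) + 1) ^ k) ∧
    ∀ F : Subfield ℝ, SimLiouville F →
      -- (1) the tails
      (∃ n₀ : ℕ, ∀ n : ℕ, 3 ≤ n → Odd n →
        {x : ℚ | 0 ≤ x ∧ AlgebraicOverE F (R n x)}.encard ≤ 2 ∧
        (n ≠ n₀ → {x : ℚ | 0 ≤ x ∧ AlgebraicOverE F (R n x)}.encard ≤ 1)) ∧
      -- (2) the ratios
      (∀ n : ℕ, 3 ≤ n → Odd n → ∀ x : ℚ, 0 ≤ x → AlgebraicRatio F n x →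
        AlgebraicOverE F (R n x)) := by
  have hR : ∀ k : ℕ, 2 ≤ k → ∀ x : ℚ, 0 ≤ x → R k (x : ℝ) = Pool.Agent.U456.IZ.Tl k x := by
    intro k hk x hx
    rcases hx.eq_or_lt with h0 | h0
    · rw [← h0, Rat.cast_zero, Pool.Agent.U456.IZ.Tl, if_pos rfl]
      exact Pool.Agent.U456.IZ.Rg_zero hk
    · rw [Pool.Agent.U456.IZ.Tl, if_neg h0.ne']
      exact Pool.Agent.U456.IZ.Rg_pos hk (by exact_mod_cast h0)
  have hE : evenTails = Pool.Agent.U456.IZ.evenT := by
    ext w
    constructor
    · rintro ⟨j, hj, hj2, y, hy, h⟩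
      exact ⟨j, hj, hj2, y, hy, by rw [h, hR j hj2 y hy]⟩
    · rintro ⟨j, hj, hj2, y, hy, h⟩
      exact ⟨j, hj, hj2, y, hy, by rw [h, hR j hj2 y hy]⟩
  refine ⟨Pool.Agent.U456.IZ.sim_bot, sim_apField, sim_lz,
    fun k hk => ⟨fun x hx => Pool.Agent.U456.IZ.tailk_real hk hx,
    Pool.Agent.U456.IZ.Rg_zero hk⟩, fun F hF => ⟨?_, ?_⟩⟩
  · obtain ⟨n₀, h⟩ := Pool.Agent.U456.IZ.odd_law_exists hF
    refine ⟨n₀, fun n hn hodd => ?_⟩
    have h1 : {x : ℚ | 0 ≤ x ∧ AlgebraicOverE F (R n x)} = {x : ℚ | 0 ≤ x ∧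
        Pool.Agent.U456.IZ.Tl n x ∈ (Pool.Agent.U456.IZ.MF F).closure
          (insert (Real.exp 1) Pool.Agent.U456.IZ.evenT)} := by
      ext x
      simp only [Set.mem_setOf_eq]
      refine and_congr_right fun hx => ?_
      rw [AlgebraicOverE, hE, hR n (by omega) x hx, Pool.Agent.U456.IZ.mem_clE]
    rw [h1]
    exact h n hn hodd
  · rintro n hn hodd x hx ⟨y, hy, hne, h⟩
    have h1 : R (2 * n) y ∈ (Pool.Agent.U456.IZ.MF F).closure
        (insert (Real.exp 1) evenTails) :=
      Pool.Agent.U456.IZ.self_clE (Set.mem_insert_of_mem _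
        ⟨2 * n, even_two_mul n, by omega, y, hy, rfl⟩)
    have h2 : R (2 * n) y / R n x ^ 2 ∈ (Pool.Agent.U456.IZ.MF F).closure
        (insert (Real.exp 1) evenTails) :=
      Pool.Agent.U456.IZ.mono_clE (Set.singleton_subset_iff.2 (Set.mem_insert _ _))
        (Pool.Agent.U456.IZ.mem_clE.2 h)
    have hz : R (2 * n) (y : ℝ) ≠ 0 := fun h0 => hne (by rw [h0, zero_div])
    have hx0 : R n (x : ℝ) ^ 2 ≠ 0 := fun h0 => hne (by rw [h0, div_zero])
    have h3 : R n (x : ℝ) ^ 2 = R (2 * n) y * (R (2 * n) y / R n x ^ 2)⁻¹ := by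
      field_simp
    have h4 : R n (x : ℝ) ^ 2 ∈ (Pool.Agent.U456.IZ.MF F).closure
        (insert (Real.exp 1) evenTails) := by
      rw [h3]
      exact Pool.Agent.U456.IZ.mul_clE h1 (Pool.Agent.U456.IZ.inv_clE h2)
    exact Pool.Agent.U456.IZ.mem_clE.1 (Pool.Agent.U456.IZ.of_pow_clE (by norm_num) h4)

end Pool.Agent.Results.MP_f1a024_nt.AllButOneTail
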