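import Pool.Agent.U829.JX.Main
import Pool.Agent.U831.JE.Mon

set_option autoImplicit false

/-!
# `ζ(2n) / ζ(n)^2` and the monomials in `ζ(n)` and `π`: digits in algebraic bases and continued fractions

Let `n ≥ 2`. The numbers `c_i ζ(n)^(a_i) π^(b_i)`, `c_i ≠ 0` rational, with integer vectors `(a_i, b_i)` no two of which
are proportional, among them `t(n) = ζ(2n) / ζ(n)^2` for `(a_i, b_i) = (-2, 2n)` and `ζ(n)`, are jointly irregular
(`JointlyIrregular`).

An expansion of a real number `x` is a sequence of digits of `x` in one of finitely many algebraic bases (integers or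
not; any digits `|a_i| ≤ B`), or the sequence of its partial quotients. Its height is `n log β` or the logarithm of
the denominator of the convergent. Any two expansions of two different numbers of the family are apart: they cannot
both be cut into few pieces (a single term or `U V V ... V V'`) and cannot both be announced by automata with few
errors, at no scale; for every `θ < 1` there is `c > 0` such that at every large height `Z` at most one of the
numbers has an expansion which up to the height `Z` can be cut into `c log Z` pieces of size `Z^θ` or announced with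
`c log Z` errors by an automaton with `S` states, `S log (M + 3) ≤ Z^θ`. If one of the numbers is algebraic then all
expansions of every other one are irregular by themselves. The digits of a rational number in an integer base are one
piece, its partial quotients end; a real quadratic number has periodic partial quotients.

Proof. A piece gives an integer polynomial of bounded degree with a very small value at the number (a norm from
`ℚ(β)` for digits, the determinant of two pairs of convergents for partial quotients; `Pool.Agent.U829.AB`,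
`Pool.Agent.U829.CF`). Two of them, for two numbers of the family, contradict the joint measure of the starting
library (`Pool.Agent.R473.JC`, from the transcendence measure of `π`).
-/

namespace Pool.Agent.Results.MP_f1a024_nt.AllExpansions

open Pool.Agent.U829.AB Pool.Agent.U829.JX
open Polynomial

/-- digits exist -/
theorem digits (F : Finset ℝ) (hF : ∀ β ∈ F, 1 < β ∧ IsAlgebraic ℤ β) (B T : ℕ) (β : ℝ) (hβ : β ∈ F)
    (hB : β < B + 1) (x : ℝ) (hx : |x| < β ^ T) :
    ∃ (a : ℕ → ℤ) (h : ℕ → ℝ), DigitCode {β} B T x a h ∧ Code F B T x a h := by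
  obtain ⟨a, h, hc⟩ := exists_code {β} B T β (Finset.mem_singleton_self β) (hF β hβ).1 hB x hx
  refine ⟨a, h, hc, Or.inl ?_⟩
  obtain ⟨γ, hγ, h1⟩ := hc
  rw [Finset.mem_singleton] at hγ
  subst hγ
  exact ⟨_, hβ, h1⟩

/-- `ζ(s)` for integers `s ≥ 2` (the term `k = 0` is `1 / 0 = 0`). -/
noncomputable def zeta (s : ℕ) : ℝ := ∑' k : ℕ, 1 / (k : ℝ) ^ s

/-- `t(n) = ζ(2n) / ζ(n) ^ 2`. -/
noncomputable def t (n : ℕ) : ℝ := zeta (2 * n) / zeta n ^ 2

lemma zeta_pos (n : ℕ) (hn : 2 ≤ n) : 0 < zeta n := by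
  have hs : Summable fun k : ℕ => 1 / (k : ℝ) ^ n :=
    Real.summable_one_div_nat_pow.mpr (by omega)
  have h1 := hs.le_tsum 1 (fun k _ => by positivity)
  have h2 : (0 : ℝ) < 1 / ((1 : ℕ) : ℝ) ^ n := by simp
  exact h2.trans_le h1

/-- Euler: `t(n)` is a nonzero rational multiple of `ζ(n) ^ (-2) π ^ (2n)`. -/
lemma t_eq (n : ℕ) (hn : 2 ≤ n) :
    ∃ c : ℚ, c ≠ 0 ∧ t n = c * zeta n ^ (-2 : ℤ) * Real.pi ^ ((2 * n : ℕ) : ℤ) := by
  have h1 := (hasSum_zeta_nat (k := n) (by omega)).tsum_eq
  refine ⟨(-1) ^ (n + 1) * 2 ^ (2 * n - 1) * _root_.bernoulli (2 * n) / (2 * n).factorial, ?_, ?_⟩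
  · intro h0
    have h2 : zeta (2 * n) = 0 := by
      unfold zeta
      rw [h1]
      have h3 : (((-1) ^ (n + 1) * 2 ^ (2 * n - 1) * _root_.bernoulli (2 * n) / (2 * n).factorial : ℚ) :
          ℝ) = 0 := by rw [h0]; simp
      push_cast at h3
      calc _ = ((-1 : ℝ) ^ (n + 1) * 2 ^ (2 * n - 1) * (_root_.bernoulli (2 * n) : ℝ) /
            ((2 * n).factorial : ℝ)) * Real.pi ^ (2 * n) := by ring
        _ = 0 := by rw [h3, zero_mul]
    exact (zeta_pos (2 * n) (by omega)).ne' h2
  · have hz := (zeta_pos n hn).ne'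
    have h2 : zeta (2 * n) = (-1 : ℝ) ^ (n + 1) * (2 : ℝ) ^ (2 * n - 1) * Real.pi ^ (2 * n) *
        _root_.bernoulli (2 * n) / (2 * n).factorial := h1
    unfold t
    rw [h2, zpow_natCast, zpow_neg]
    norm_cast
    push_cast
    field_simp

/-- **Theorem.** Let `F` be a finite set of real algebraic numbers `β > 1`, `B`, `T` natural numbers, `n ≥ 2`.

(1) The numbers `c_i ζ(n)^(a_i) π^(b_i)`, `c_i` nonzero rational numbers, `a_i`, `b_i` integers, are jointly irregular
if the vectors `(a_i, b_i)` are pairwise linearly independent.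

(2) `t(n) = ζ(2n) / ζ(n)^2` is such a number with the vector `(-2, 2n)`. For instance `t(n)`, `ζ(n)`, `ζ(n) π` are
jointly irregular.

(3) Digits exist: if `β ∈ F`, `β < B + 1` and `|x| < β^T` then `x` has such a sequence of digits in base `β`. -/
theorem result (F : Finset ℝ) (hF : ∀ β ∈ F, 1 < β ∧ IsAlgebraic ℤ β) (B T : ℕ) (n : ℕ) (hn : 2 ≤ n) :
    (∀ (k : ℕ) (c : Fin k → ℚ) (a b : Fin k → ℤ), (∀ i, c i ≠ 0) → (∀ i j, i ≠ j → a i * b j - b i * a j ≠ 0) →
      JointlyIrregular F B T fun i => c i * zeta n ^ a i * Real.pi ^ b i) ∧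
    (∃ c : ℚ, c ≠ 0 ∧ t n = c * zeta n ^ (-2 : ℤ) * Real.pi ^ ((2 * n : ℕ) : ℤ)) ∧
    JointlyIrregular F B T ![t n, zeta n, zeta n * Real.pi] ∧
    (∀ β ∈ F, β < B + 1 → ∀ x : ℝ, |x| < β ^ T → ∃ (a : ℕ → ℤ) (h : ℕ → ℝ), DigitCode {β} B T x a h ∧ Code F B T x a h) := by
  have h3 : ∀ (k : ℕ) (c : Fin k → ℚ) (a b : Fin k → ℤ), (∀ i, c i ≠ 0) →
      (∀ i j, i ≠ j → a i * b j - b i * a j ≠ 0) →
      JointlyIrregular F B T fun i => c i * zeta n ^ a i * Real.pi ^ b i := by
    intro k c a b hc h
    refine jointlyIrregular F hF B T _ fun i j hij => ?_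
    refine Pool.Agent.U831.JE.joint_mon Real.pi (zeta n) Real.pi_pos.ne' (zeta_pos n hn).ne'
      Pool.Agent.TH456.TM.measT_pi (c i) (c j) (hc i) (hc j) _ _ _ _ ?_
    have := h i j hij
    intro h0
    apply this
    linear_combination -h0
  refine ⟨h3, t_eq n hn, ?_, fun β hβ hB x hx => digits F hF B T β hβ hB x hx⟩
  obtain ⟨c, hc, ht⟩ := t_eq n hn
  have h := h3 3 ![c, 1, 1] ![-2, 1, 1] ![((2 * n : ℕ) : ℤ), 0, 1] (by
      intro i
      fin_cases i
      · exact hc
      · exact one_ne_zero
      · exact one_ne_zero) (by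
      have hn0 : (n : ℤ) ≠ 0 := by omega
      intro i j hij
      fin_cases i <;> fin_cases j <;> simp at hij ⊢ <;> omega)
  have e : (fun i => ((![c, 1, 1] : Fin 3 → ℚ) i : ℝ) * zeta n ^ (![-2, 1, 1] : Fin 3 → ℤ) i *
      Real.pi ^ (![((2 * n : ℕ) : ℤ), 0, 1] : Fin 3 → ℤ) i) = ![t n, zeta n, zeta n * Real.pi] := by
    funext i
    fin_cases i
    · exact ht.symm
    · show ((1 : ℚ) : ℝ) * zeta n ^ (1 : ℤ) * Real.pi ^ (0 : ℤ) = zeta n
      rw [Rat.cast_one, one_mul, zpow_one, zpow_zero, mul_one]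
    · show ((1 : ℚ) : ℝ) * zeta n ^ (1 : ℤ) * Real.pi ^ (1 : ℤ) = zeta n * Real.pi
      rw [Rat.cast_one, one_mul, zpow_one, zpow_one]
  rwa [e] at h

end Pool.Agent.Results.MP_f1a024_nt.AllExpansions
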