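import Pool.Agent.U831.JE.Type
import Pool.Agent.Y760.RT.Ser

/-!
# Multiples of `β ζ(2n) / ζ(n) ^ 2` for large `n`: near-optimal discrepancy

Let `t(n) = ζ(2n) / ζ(n) ^ 2`. Let `β ≠ 0` be a real algebraic number and let `C` and `B` be real
numbers with `B > 2`, or with `B > 1` if `β` is irrational. For all large `n` and ALL `N ≤ C ^ n`
the number of `m < N` with `m β t(n) + γ` in `[u, v)` modulo one is `(v - u) N` up to an error of at
most `B ^ n`, uniformly in `γ`, `u`, `v`. So at every scale `N` between `B ^ n` and an arbitrarily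
high power of it the discrepancy is at most `B ^ n / N`, where `B` is arbitrarily close to `1` for
irrational `β`. For `β = 1` the number `2` is optimal: `t(n)` is so close to one that the error is
at least `2 ^ n / 64 - 1` for some `N ≤ 2 ^ n`.

Proof. A recursion on the scale: if no fraction with denominator at most `N` is too close to `α`,
blocks of a length given by Dirichlet's theorem leave a remainder of at most half the length, so the
error is at most `10 K (log N + 1)`, up to the exceptional approximation `β` of `β t(n)`, which is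
used at the scales `N ≤ 2 ^ n / |β|` only. The approximations are controlled by the Roth-type bound
for Dirichlet series of the starting library (`Pool.Agent.Y760.RT.mainQ`).
-/

set_option autoImplicit false

namespace Pool.Agent.Results.MP_f1a024_nt.NearOptimalDiscrepancy

/-- The number of `m < N` with the fractional part of `m α + γ` in `[u, v)`. -/
noncomputable def count (α γ u v : ℝ) (N : ℕ) : ℕ :=
  ((Finset.range N).filter fun m : ℕ =>
    u ≤ Int.fract (m * α + γ) ∧ Int.fract (m * α + γ) < v).card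

/-- `ζ(s)` for integers `s ≥ 2` (the term `k = 0` is `1 / 0 = 0`). -/
noncomputable def zeta (s : ℕ) : ℝ := ∑' k : ℕ, 1 / (k : ℝ) ^ s

/-- `t(n) = ζ(2n) / ζ(n) ^ 2`. -/
noncomputable def t (n : ℕ) : ℝ := zeta (2 * n) / zeta n ^ 2

lemma summ (n : ℕ) (hn : 2 ≤ n) : Summable fun k : ℕ => 1 / (k : ℝ) ^ n :=
  Real.summable_one_div_nat_pow.mpr (by omega)

lemma zeta_ge (n : ℕ) (hn : 2 ≤ n) : 1 + 1 / 2 ^ n ≤ zeta n := by
  have h1 := (summ n hn).sum_le_tsum {1, 2} (fun k _ => by positivity)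
  rw [Finset.sum_pair (by norm_num)] at h1
  simpa [zeta] using h1

lemma zeta_le (n : ℕ) (hn : 2 ≤ n) : zeta n ≤ 1 + 8 / 2 ^ n := by
  have h1 : ∀ k : ℕ, 1 / (k : ℝ) ^ n ≤ (if k = 1 then 1 else 0) + 4 / 2 ^ n * (1 / (k : ℝ) ^ 2) := by
    intro k
    obtain ⟨m, rfl⟩ : ∃ m, n = m + 2 := ⟨n - 2, by omega⟩
    rcases Nat.lt_or_ge k 2 with hk | hk
    · interval_cases k
      · simp
      · simp
        positivity
    · have h2 : (2 : ℝ) ≤ k := by exact_mod_cast hk
      have h3 : (2 : ℝ) ^ m ≤ (k : ℝ) ^ m := pow_le_pow_left₀ (by norm_num) h2 m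
      rw [if_neg (by omega), zero_add]
      have h4 : (4 : ℝ) / 2 ^ (m + 2) = 1 / 2 ^ m := by
        rw [pow_add]; field_simp; norm_num
      rw [h4, one_div_mul_one_div, pow_add]
      exact one_div_le_one_div_of_le (by positivity)
        (mul_le_mul_of_nonneg_right h3 (by positivity))
  have hs2 := summ 2 le_rfl
  have hs1 : HasSum (fun k : ℕ => if k = 1 then (1 : ℝ) else 0) 1 := by
    simpa using hasSum_ite_eq (1 : ℕ) (1 : ℝ)
  have h2 := (summ n hn).tsum_le_tsum h1 (hs1.summable.add (hs2.mul_left _))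
  rw [hs1.summable.tsum_add (hs2.mul_left _), hs1.tsum_eq, tsum_mul_left] at h2
  have h3 : (∑' k : ℕ, 1 / (k : ℝ) ^ 2) ≤ 2 := by
    rw [hasSum_zeta_two.tsum_eq]
    have := Real.pi_lt_d2
    nlinarith [Real.pi_pos]
  have h4 : (4 : ℝ) / 2 ^ n * (∑' k : ℕ, 1 / (k : ℝ) ^ 2) ≤ 4 / 2 ^ n * 2 :=
    mul_le_mul_of_nonneg_left h3 (by positivity)
  unfold zeta
  calc _ ≤ _ := h2
    _ ≤ 1 + 4 / 2 ^ n * 2 := by linarith
    _ = _ := by ring

lemma t_pos (n : ℕ) (hn : 2 ≤ n) : 0 < t n := by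
  have h1 := zeta_ge n hn
  have h2 := zeta_ge (2 * n) (by omega)
  have h3 : (0 : ℝ) < 1 / 2 ^ n := by positivity
  have h4 : (0 : ℝ) < 1 / 2 ^ (2 * n) := by positivity
  exact div_pos (by linarith) (pow_pos (by linarith) 2)

/-- `t(n)` is not too close to one. -/
lemma one_sub_t_ge (n : ℕ) (hn : 2 ≤ n) : 1 / 2 ^ (n + 1) ≤ 1 - t n := by
  have h1 := zeta_ge n hn
  have h3 : (0 : ℝ) < 1 / 2 ^ n := by positivity
  have h3' : (1 : ℝ) / 2 ^ n ≤ 1 := by
    rw [div_le_one (by positivity)]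
    exact one_le_pow₀ (by norm_num)
  have h4 : zeta (2 * n) ≤ zeta n := by
    refine (summ (2 * n) (by omega)).tsum_le_tsum (fun k => ?_) (summ n hn)
    rcases Nat.eq_zero_or_pos k with rfl | hk
    · rw [Nat.cast_zero, zero_pow (by omega), zero_pow (by omega)]
    · have h5 : (1 : ℝ) ≤ k := by exact_mod_cast hk
      exact one_div_le_one_div_of_le (by positivity) (pow_le_pow_right₀ h5 (by omega))
  have h5 : t n ≤ 1 / zeta n := by
    unfold t
    rw [div_le_div_iff₀ (by nlinarith) (by linarith)]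
    nlinarith
  have h6 : 1 / zeta n ≤ 1 / (1 + 1 / 2 ^ n) := one_div_le_one_div_of_le (by linarith) h1
  have h7 : 1 / (1 + 1 / 2 ^ n) ≤ 1 - (1 : ℝ) / 2 ^ n / 2 := by
    rw [div_le_iff₀ (by linarith)]
    nlinarith
  have h8 : (1 : ℝ) / 2 ^ n / 2 = 1 / 2 ^ (n + 1) := by rw [pow_succ]; field_simp
  linarith

/-- `t(n)` is close to one. -/
lemma one_sub_t_le (n : ℕ) (hn : 2 ≤ n) : 1 - t n ≤ 16 / 2 ^ n := by
  have h1 := zeta_le n hn
  have h2 := zeta_ge n hn
  have h3 : (0 : ℝ) < 1 / 2 ^ n := by positivity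
  have h4 := zeta_ge (2 * n) (by omega)
  have h5 : (0 : ℝ) < 1 / 2 ^ (2 * n) := by positivity
  have h6 : 1 / zeta n ^ 2 ≤ t n := by
    unfold t
    exact div_le_div_of_nonneg_right (by linarith) (by positivity)
  have h7 : 1 - 16 / 2 ^ n ≤ 1 / zeta n ^ 2 := by
    rw [le_div_iff₀ (by nlinarith)]
    have e8 : (8 : ℝ) / 2 ^ n = 8 * (1 / 2 ^ n) := by ring
    have e16 : (16 : ℝ) / 2 ^ n = 16 * (1 / 2 ^ n) := by ring
    rw [e8] at h1
    rw [e16]
    set x : ℝ := 1 / 2 ^ n with hx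
    rcases le_or_gt 1 (16 * x) with h9 | h9
    · have : 0 ≤ zeta n ^ 2 := by positivity
      nlinarith
    · have h10 : zeta n ^ 2 ≤ (1 + 8 * x) ^ 2 := by
        apply pow_le_pow_left₀ _ h1
        linarith
      have h11 : (1 - 16 * x) * zeta n ^ 2 ≤ (1 - 16 * x) * (1 + 8 * x) ^ 2 :=
        mul_le_mul_of_nonneg_left h10 (by linarith)
      refine h11.trans ?_
      nlinarith [mul_pos h3 h3, mul_pos (mul_pos h3 h3) h3]
  linarith

/-- The Roth-type bound of the starting library for the real number `β t(n)`. -/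
lemma roth (β : ℝ) (hβ : IsAlgebraic ℚ β) (hβ0 : β ≠ 0) (C B : ℝ) (hB : 1 < B) :
    ∃ n0 : ℕ, ∀ n : ℕ, n0 ≤ n → ∀ p q : ℤ, 1 ≤ q → (q : ℝ) ≤ C ^ n → (p : ℝ) / q ≠ β →
      1 / ((q : ℝ) ^ 2 * B ^ n) < |β * t n - p / q| := by
  open Pool.Agent.TH507.ZS Pool.Agent.Y760.RT in
  obtain ⟨A, hA⟩ := tQ_pb
  have h1 : tQ 1 = 1 := tQ_mult.1
  obtain ⟨n0, hn0⟩ := mainQ hA (fun h hh => by
    obtain ⟨k, h1, h2, h3, h4⟩ := exists_prime_coprime hh
    refine ⟨k, h1, h2, h3, ?_⟩
    rw [tQ_prime h4]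
    norm_num) β hβ hβ0 C B hB
  obtain ⟨n1, hn1⟩ := dser_t
  have hz : ∀ m : ℕ, 2 ≤ m → dser zQ m = zeta m := by
    intro m hm
    unfold dser zeta
    rw [(summ m hm).tsum_eq_zero_add]
    rw [Nat.cast_zero, zero_pow (by omega), div_zero, zero_add]
    refine tsum_congr fun k => ?_
    rw [zQ_apply (by omega)]
    push_cast
    rfl
  refine ⟨n0 + n1 + 3, fun n hn p q hq hqC hpq => ?_⟩
  have h2 := hn0 n (by omega) p q hq hqC (by rwa [h1, Rat.cast_one, mul_one])
  rw [hn1 n (by omega), hz _ (by omega), hz _ (by omega)] at h2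
  exact h2

/-- the error term of the recursion is at most `B ^ n` -/
lemma asympt (C B B₁ c : ℝ) (h1 : 1 < B₁) (h2 : B₁ < B) (L : ℝ) (hL : 0 < L) (hLB : L < B) :
    ∃ n₀ : ℕ, ∀ n : ℕ, n₀ ≤ n → ∀ N : ℕ, (N : ℝ) ≤ C ^ n →
      10 * B₁ ^ n * (Nat.log 2 N + 1) + c * L ^ n ≤ B ^ n := by
  have hB : 0 < B := by linarith
  have hr1 : |B₁ / B| < 1 := by
    rw [abs_of_pos (by positivity), div_lt_one hB]; exact h2
  have hr2 : |L / B| < 1 := by
    rw [abs_of_pos (by positivity), div_lt_one hB]; exact hLB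
  obtain ⟨M, hM⟩ : ∃ M : ℕ, |C| ≤ 2 ^ M := by
    obtain ⟨M, hM⟩ := pow_unbounded_of_one_lt |C| (by norm_num : (1 : ℝ) < 2)
    exact ⟨M, hM.le⟩
  have t1 := tendsto_pow_const_mul_const_pow_of_abs_lt_one 1 hr1
  have t2 := tendsto_pow_const_mul_const_pow_of_abs_lt_one 0 hr1
  have t3 := tendsto_pow_const_mul_const_pow_of_abs_lt_one 0 hr2
  have t4 : Filter.Tendsto (fun n : ℕ => 10 * M * ((n : ℝ) ^ 1 * (B₁ / B) ^ n) +
      10 * ((n : ℝ) ^ 0 * (B₁ / B) ^ n) + c * ((n : ℝ) ^ 0 * (L / B) ^ n)) Filter.atTop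
      (nhds (10 * M * 0 + 10 * 0 + c * 0)) :=
    ((t1.const_mul _).add (t2.const_mul _)).add (t3.const_mul _)
  rw [mul_zero, mul_zero, mul_zero, add_zero, add_zero] at t4
  obtain ⟨n₀, hn₀⟩ := Filter.eventually_atTop.mp (t4.eventually_lt_const one_pos)
  refine ⟨n₀, fun n hn N hN => ?_⟩
  have h3 := hn₀ n hn
  have h4 : (Nat.log 2 N : ℝ) ≤ M * n := by
    have h5 : (N : ℝ) ≤ 2 ^ (M * n) := by
      calc (N : ℝ) ≤ C ^ n := hN
        _ ≤ |C ^ n| := le_abs_self _
        _ = |C| ^ n := abs_pow _ _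
        _ ≤ (2 ^ M) ^ n := pow_le_pow_left₀ (abs_nonneg _) hM n
        _ = 2 ^ (M * n) := by rw [pow_mul]
    have h6 : N ≤ 2 ^ (M * n) := by exact_mod_cast h5
    have h7 : Nat.log 2 N ≤ M * n := by
      calc Nat.log 2 N ≤ Nat.log 2 (2 ^ (M * n)) := Nat.log_mono_right h6
        _ = M * n := Nat.log_pow (by norm_num) _
    exact_mod_cast h7
  have hBn : 0 < B ^ n := pow_pos hB n
  have h5 : 10 * B₁ ^ n * (Nat.log 2 N + 1) ≤ 10 * B₁ ^ n * (M * n + 1) :=
    mul_le_mul_of_nonneg_left (by linarith) (by positivity)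
  have h6 : 10 * B₁ ^ n * (M * n + 1) + c * L ^ n = (10 * M * ((n : ℝ) ^ 1 * (B₁ / B) ^ n) +
      10 * ((n : ℝ) ^ 0 * (B₁ / B) ^ n) + c * ((n : ℝ) ^ 0 * (L / B) ^ n)) * B ^ n := by
    rw [div_pow, div_pow]
    field_simp
  calc _ ≤ 10 * B₁ ^ n * (M * n + 1) + c * L ^ n := by linarith
    _ = _ := h6
    _ ≤ 1 * B ^ n := mul_le_mul_of_nonneg_right h3.le hBn.le
    _ = B ^ n := one_mul _

theorem result :
    -- the discrepancy of the multiples of `β t(n)`
    (∀ β : ℝ, IsAlgebraic ℚ β → β ≠ 0 → ∀ C B : ℝ, (2 < B ∨ (1 < B ∧ Irrational β)) →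
      ∃ n₀ : ℕ, ∀ n : ℕ, n₀ ≤ n → ∀ N : ℕ, (N : ℝ) ≤ C ^ n → ∀ γ u v : ℝ, 0 ≤ u → u ≤ v → v ≤ 1 →
        |(count (β * t n) γ u v N : ℝ) - (v - u) * N| ≤ B ^ n) ∧
    -- for `β = 1` the number two is optimal
    (∀ n : ℕ, 5 ≤ n → ∃ N : ℕ, (N : ℝ) ≤ 2 ^ n ∧
      2 ^ n / 64 - 1 ≤ |(count (t n) 0 0 (1 / 2) N : ℝ) - 1 / 2 * N|) := by
  refine ⟨fun β hβ hβ0 C B hB => ?_, fun n hn => ?_⟩
  · have hB1 : 1 < B := by rcases hB with h | h <;> linarith [h]
    set B₁ : ℝ := (1 + B) / 2 with hB₁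
    have h1 : 1 < B₁ := by rw [hB₁]; linarith
    have h2 : B₁ < B := by rw [hB₁]; linarith
    obtain ⟨n1, hn1⟩ := roth β hβ hβ0 C B₁ h1
    -- the value of `L` and the two cases
    obtain ⟨c, L, hc, hL, hLB, hex⟩ : ∃ c L : ℝ, 0 < c ∧ 0 < L ∧ L < B ∧ ∀ n : ℕ, 2 ≤ n →
        ∀ p q : ℤ, 1 ≤ q → (p : ℝ) / q = β → 1 / (c * L ^ n) ≤ |(q : ℝ) * (β * t n) - p| := by
      rcases hB with hB | ⟨hB, hirr⟩
      · refine ⟨2 / |β|, 2, by positivity, by norm_num, hB, fun n hn p q hq hpq => ?_⟩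
        have hq0 : (1 : ℝ) ≤ q := by exact_mod_cast hq
        have hp : (p : ℝ) = q * β := by
          rw [← hpq]; field_simp
        have e1 : (q : ℝ) * (β * t n) - p = -(q * β * (1 - t n)) := by rw [hp]; ring
        have h3 := one_sub_t_ge n hn
        have h4 : (0 : ℝ) < 1 / 2 ^ (n + 1) := by positivity
        rw [e1, abs_neg, abs_mul, abs_mul, abs_of_pos (by linarith : (0 : ℝ) < 1 - t n),
          abs_of_pos (by linarith : (0 : ℝ) < q)]
        have hb : 0 < |β| := abs_pos.mpr hβ0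
        calc 1 / (2 / |β| * 2 ^ n) = 1 * |β| * (1 / 2 ^ (n + 1)) := by
              rw [pow_succ]; field_simp
          _ ≤ q * |β| * (1 - t n) :=
              mul_le_mul (mul_le_mul_of_nonneg_right hq0 hb.le) h3 h4.le (by positivity)
      · refine ⟨1, 1, one_pos, one_pos, hB, fun n hn p q hq hpq => ?_⟩
        exact absurd ⟨(p / q : ℚ), by push_cast; exact hpq⟩ hirr
    obtain ⟨n2, hn2⟩ := asympt C B B₁ c h1 h2 L hL hLB
    refine ⟨n1 + n2 + 2, fun n hn N hN γ u v hu huv hv => ?_⟩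
    have h5 := Pool.Agent.U831.JE.err_of_type (β * t n) (B₁ ^ n) (c * L ^ n) (C ^ n)
      (by positivity) (by positivity) (by
        intro q p hq hqC _
        by_cases hpq : (p : ℝ) / ((q : ℤ) : ℝ) = β
        · right
          have := hex n (by omega) p q (by exact_mod_cast hq) hpq
          simpa using this
        · left
          have h6 := hn1 n (by omega) p q (by exact_mod_cast hq) (by simpa using hqC) hpq
          have hq0 : (0 : ℝ) < q := by exact_mod_cast hq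
          have e : (q : ℝ) * (β * t n) - p = q * (β * t n - p / q) := by field_simp
          rw [e, abs_mul, abs_of_pos hq0]
          push_cast at h6
          calc 1 / (B₁ ^ n * q) = q * (1 / ((q : ℝ) ^ 2 * B₁ ^ n)) := by
                field_simp
            _ < _ := mul_lt_mul_of_pos_left h6 hq0) u v hu huv hv N hN γ
    exact h5.trans (hn2 n (by omega) N hN)
  · obtain ⟨k, rfl⟩ : ∃ k, n = k + 5 := ⟨n - 5, by omega⟩
    refine ⟨2 ^ k + 1, ?_, ?_⟩
    · push_cast
      have : (1 : ℝ) ≤ 2 ^ k := one_le_pow₀ (by norm_num)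
      rw [pow_add]
      linarith
    · have h1 := one_sub_t_ge (k + 5) (by omega)
      have h2 := one_sub_t_le (k + 5) (by omega)
      have h0 : (0 : ℝ) < 1 / 2 ^ (k + 5 + 1) := by positivity
      have h3 : ∀ m : ℕ, 1 ≤ m → m < 2 ^ k + 1 → 1 / 2 ≤ Int.fract (m * t (k + 5) + 0) := by
        intro m hm1 hm2
        have h4 : (m : ℝ) ≤ 2 ^ k := by exact_mod_cast Nat.lt_succ_iff.mp hm2
        have h5 : (1 : ℝ) ≤ m := by exact_mod_cast hm1
        have h6 : (m : ℝ) * (1 - t (k + 5)) ≤ 1 / 2 := by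
          calc (m : ℝ) * (1 - t (k + 5)) ≤ 2 ^ k * (16 / 2 ^ (k + 5)) :=
                mul_le_mul h4 h2 (by linarith) (by positivity)
            _ = 1 / 2 := by rw [pow_add]; field_simp; norm_num
        have h7 : (0 : ℝ) < m * (1 - t (k + 5)) := mul_pos (by linarith) (by linarith)
        have h8 : Int.fract ((m : ℝ) * t (k + 5) + 0) = 1 - m * (1 - t (k + 5)) := by
          rw [Int.fract_eq_iff]
          refine ⟨by linarith, by linarith, (m : ℤ) - 1, ?_⟩
          push_cast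
          ring
        rw [h8]
        linarith
      have h4 : count (t (k + 5)) 0 0 (1 / 2) (2 ^ k + 1) ≤ 1 := by
        unfold count
        refine (Finset.card_le_card (t := {0}) ?_).trans (by simp)
        intro m hm
        rw [Finset.mem_filter, Finset.mem_range] at hm
        rw [Finset.mem_singleton]
        by_contra hne
        have := h3 m (Nat.one_le_iff_ne_zero.mpr hne) hm.1
        linarith [hm.2.2]
      have h5 : (count (t (k + 5)) 0 0 (1 / 2) (2 ^ k + 1) : ℝ) ≤ 1 := by exact_mod_cast h4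
      have h6 : (2 : ℝ) ^ (k + 5) = 32 * 2 ^ k := by rw [pow_add]; norm_num; ring
      rw [abs_sub_comm]
      refine le_trans ?_ (le_abs_self _)
      push_cast
      rw [h6]
      linarith

end Pool.Agent.Results.MP_f1a024_nt.NearOptimalDiscrepancy
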