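import Pool.Agent.U553.DL.Cor
import Pool.Agent.U553.DL.Ratio
import Pool.Agent.H340R2.LW

/-!
# `ζ(2n) / ζ(n) ^ 2` for odd `n`, over arbitrary constants

Let `t(n) = ζ(2n) / ζ(n) ^ 2`. The starting result `ExponentialHeights` of this page says that `t(n), t(n + 1), ..., t(n + h)`
satisfy no nonzero polynomial relation of degree at most `D` with integer coefficients of absolute value at most `C ^ n`, for
large `n`. Here `n` runs through all odd numbers of an interval `[N, κ N]`, and arbitrary constants are allowed: finitely many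
fixed algebraic numbers `α_i` and arbitrary complex numbers `x_1, ..., x_τ`, which may depend on `N`. Relations have
degree at most `D` and integer coefficients of absolute value at most `C ^ N`. Let `N` be large, uniformly in the `x_j`.

(1) There is a set `T` of at most `τ` exceptional odd numbers in `[N, κ N]` (in all) such that for every other odd number `n` in
`[N, κ N]` the number `t(n)` is not algebraic over the constants and at most `m` of the numbers `t(k)` before it, in the
increasing order or in any other order of the odd numbers: each relation between these numbers and `t(n)` is trivial in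
`t(n)`, it holds for all complex numbers in place of `t(n)`. In particular `t(n)` is not in the field generated by the
constants (with the bounds for degree and coefficients): `τ` complex numbers can make at most `τ` of the numbers
`t(n)` of a scale rational. Any `m + 1` numbers `t(n)`, `n` not in `T`, satisfy only trivial relations over the constants.

(2) `π` and any `m + 1` of the numbers `t(n)` satisfy no nonzero relation, with the exception of at most one odd number `n` in
`[N, κ N]`. The same holds for `τ` algebraically independent numbers, with at most `τ` exceptions.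

(3) All the bounds may grow with `N`.

For even `n` the number `t(n)` is rational. The proof: for odd numbers `n` the arguments `n` and `2n` are all different; by the
linear independence of multiple zeta values with large first arguments (starting library, subspace theorem) the
germs of the `ζ(n)` and `ζ(2n)` are algebraically independent over the ring of germs of integer sequences of exponential
growth; so are the germs of the `t(n)`, and the transcendence degree over the constants gives (1).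
-/

set_option autoImplicit false

namespace Pool.Agent.Results.MP_f1a024_nt.RatiosOverConstants

open Pool.Agent.U553.DL

/-- `ζ(s) = ∑_{m ≥ 1} 1 / m ^ s` -/
noncomputable def zeta (s : ℕ) : ℝ := ∑' m : ℕ, 1 / ((m : ℝ) + 1) ^ s

/-- `t(n) = ζ(2n) / ζ(n) ^ 2` -/
noncomputable def ratio (n : ℕ) : ℝ := zeta (2 * n) / zeta n ^ 2

/-- the odd numbers in `[N, M]` -/
def odds (N M : ℕ) : Finset ℕ := (Finset.Icc N M).filter fun n => Odd n

/-- Every polynomial relation, of degree at most `D` and with integer coefficients of absolute value at most `H`, between the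
numbers `u_i` and the numbers `t(n)`, `n ∈ S`, is trivial: it remains true if the `t(n)` are replaced by arbitrary complex
numbers. -/
def Independent {σ : Type} (u : σ → ℂ) (S : Finset ℕ) (D : ℕ) (H : ℝ) : Prop :=
  ∀ P : MvPolynomial (σ ⊕ S) ℤ, P.totalDegree ≤ D → (∀ m, |((P.coeff m : ℤ) : ℝ)| ≤ H) →
    MvPolynomial.aeval (Sum.elim u fun n : S => ((ratio n : ℝ) : ℂ)) P = 0 →
    ∀ y : S → ℂ, MvPolynomial.aeval (Sum.elim u y) P = 0

/-- There is a polynomial relation, of degree at most `D` and with integer coefficients of absolute value at most `H`, between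
`t(n)`, the numbers `u_i` and the numbers `t(k)`, `k ∈ Λ`, which is not trivial in `t(n)`: it fails for some complex number
`y` in place of `t(n)`. -/
def Algebraic {σ : Type} (u : σ → ℂ) (Λ : Finset ℕ) (n : ℕ) (D : ℕ) (H : ℝ) : Prop :=
  ∃ P : MvPolynomial (Option (σ ⊕ Λ)) ℤ, P.totalDegree ≤ D ∧ (∀ m, |((P.coeff m : ℤ) : ℝ)| ≤ H) ∧
    MvPolynomial.aeval (fun o => o.elim ((ratio n : ℝ) : ℂ) (Sum.elim u fun k : Λ => ((ratio k : ℝ) : ℂ))) P = 0 ∧
    ∃ y : ℂ, MvPolynomial.aeval (fun o => o.elim y (Sum.elim u fun k : Λ => ((ratio k : ℝ) : ℂ))) P ≠ 0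

lemma mz_eq (s : ℕ) : Pool.Agent.Y760.ZG.mz [s] = zeta s := by
  rw [Pool.Agent.Y760.ZG.mz, zeta]
  refine tsum_congr fun m => ?_
  rw [Pool.Agent.Y760.ZG.hr_nil]
  push_cast
  rfl

lemma rat_eq (n : ℕ) : rat n = ((ratio n : ℝ) : ℂ) := by
  rw [rat, ratio, mz_eq, mz_eq]
  push_cast
  rfl

lemma rat_fun : rat = fun n => ((ratio n : ℝ) : ℂ) := funext rat_eq

lemma zeta_ne (s : ℕ) (hs : 2 ≤ s) : zeta s ≠ 0 := by
  have h1 : Summable fun m : ℕ => 1 / ((m : ℝ) + 1) ^ s := by
    have h2 := (summable_nat_add_iff 1).2 (Real.summable_one_div_nat_pow.2 (show 1 < s by omega))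
    refine h2.congr fun m => ?_
    push_cast
    rfl
  have h2 : 0 < zeta s := by
    rw [zeta]
    exact h1.tsum_pos (fun m => by positivity) 0 (by simp)
  exact h2.ne'

lemma pi_indep : AlgebraicIndependent ℤ (fun _ : Fin 1 => ((Real.pi : ℝ) : ℂ)) := by
  have h1 : Transcendental ℤ ((Real.pi : ℝ) : ℂ) := fun h =>
    Pool.Agent.H340R2.LW.transcendental_pi_complex (h.extendScalars (RingHom.injective_int _))
  exact (algebraicIndependent_unique_type_iff (R := ℤ) (x := fun _ : Fin 1 => ((Real.pi : ℝ) : ℂ))).2 h1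

/-- the main theorem -/
theorem main (m κ a τ D : ℕ) (C : ℝ) (α : Fin a → ℂ) (hα : ∀ i, IsAlgebraic ℤ (α i)) : ∃ N₀ : ℕ, ∀ N : ℕ, N₀ ≤ N →
    ∀ r : ℕ → ℕ, Function.Injective r → ∀ x : Fin τ → ℂ, ∃ T : Finset ℕ, T ⊆ odds N (κ * N) ∧ T.card ≤ τ ∧
      (∀ n ∈ odds N (κ * N), n ∉ T → ∀ Λ : Finset ℕ, Λ ⊆ odds N (κ * N) → Λ.card ≤ m →
        (∀ k ∈ Λ, r k < r n) → ¬ Algebraic (Sum.elim α x) Λ n D (C ^ N)) ∧
      ∀ S : Finset ℕ, S ⊆ odds N (κ * N) → S.card ≤ m + 1 → Disjoint S T →
        Independent (Sum.elim α x) S D (C ^ N) := by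
  obtain ⟨N₀, h0⟩ := globV (Vr κ) (fun n D C => ratio_pure κ n D C fun s hs => by
    rw [mz_eq]
    exact zeta_ne s hs) m a τ D C α hα
  refine ⟨N₀, fun N hN r hr x => ?_⟩
  have key := @h0 N hN ℕ (LinearOrder.lift' r hr) rat (odds N (κ * N)) (fun k s hs hmem => by
    refine ⟨s, hs, fun i => ?_, rfl⟩
    have h1 := Finset.mem_filter.1 (hmem i)
    have h2 := Finset.mem_Icc.1 h1.1
    exact ⟨h1.2, h2.1, h2.2⟩) x
  rw [rat_fun] at key
  exact key

/-- **Theorem.** Constants are `a` fixed algebraic numbers `α_i` and `τ` arbitrary complex numbers `x_j`; relations have degree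
at most `D` and height at most `C ^ N`, and `N` is large, uniformly in the `x_j`. The odd numbers in `[N, κ N]` are ordered by
any injective function `r`.
(1) At most `τ` odd numbers are exceptional. If `n` is not exceptional, then `t(n)` is not algebraic over the constants and at
most `m` numbers `t(k)` with `r k < r n`. The numbers `t(n)`, `n ∈ S`, are independent over the constants for all
sets `S` of at most `m + 1` odd numbers which are not exceptional.
(2) If the constants are algebraically independent, then they and the `t(n)`, `n ∈ S`, satisfy no nonzero relation, for all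
sets `S` of at most `m + 1` odd numbers, with at most `τ` exceptional odd numbers; for `π` there is at most one.
(3) All the bounds can be replaced by a function of `N` which tends to infinity. -/
theorem result :
    (∀ (m κ a τ D : ℕ) (C : ℝ) (α : Fin a → ℂ), (∀ i, IsAlgebraic ℚ (α i)) → ∃ N₀ : ℕ, ∀ N : ℕ, N₀ ≤ N →
      ∀ r : ℕ → ℕ, Function.Injective r → ∀ x : Fin τ → ℂ, ∃ T : Finset ℕ, T ⊆ odds N (κ * N) ∧ T.card ≤ τ ∧
      (∀ n ∈ odds N (κ * N), n ∉ T → ∀ Λ : Finset ℕ, Λ ⊆ odds N (κ * N) → Λ.card ≤ m →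
        (∀ k ∈ Λ, r k < r n) → ¬ Algebraic (Sum.elim α x) Λ n D (C ^ N)) ∧
      ∀ S : Finset ℕ, S ⊆ odds N (κ * N) → S.card ≤ m + 1 → Disjoint S T →
        Independent (Sum.elim α x) S D (C ^ N)) ∧
    (∀ (m κ τ D : ℕ) (C : ℝ), ∃ N₀ : ℕ, ∀ N : ℕ, N₀ ≤ N → ∀ x : Fin τ → ℂ, AlgebraicIndependent ℚ x →
      ∃ T : Finset ℕ, T ⊆ odds N (κ * N) ∧ T.card ≤ τ ∧
        ∀ S : Finset ℕ, S ⊆ odds N (κ * N) → S.card ≤ m + 1 → Disjoint S T →
        ∀ P : MvPolynomial (Fin τ ⊕ S) ℤ, P ≠ 0 → P.totalDegree ≤ D → (∀ m, |((P.coeff m : ℤ) : ℝ)| ≤ C ^ N) →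
          MvPolynomial.aeval (Sum.elim x fun n : S => ((ratio n : ℝ) : ℂ)) P ≠ 0) ∧
    (∀ (m κ D : ℕ) (C : ℝ), ∃ N₀ : ℕ, ∀ N : ℕ, N₀ ≤ N →
      ∃ T : Finset ℕ, T ⊆ odds N (κ * N) ∧ T.card ≤ 1 ∧
        ∀ S : Finset ℕ, S ⊆ odds N (κ * N) → S.card ≤ m + 1 → Disjoint S T →
        ∀ P : MvPolynomial (Fin 1 ⊕ S) ℤ, P ≠ 0 → P.totalDegree ≤ D → (∀ m, |((P.coeff m : ℤ) : ℝ)| ≤ C ^ N) →
          MvPolynomial.aeval (Sum.elim (fun _ => ((Real.pi : ℝ) : ℂ)) fun n : S => ((ratio n : ℝ) : ℂ)) P ≠ 0) ∧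
    (∃ ω : ℕ → ℕ, Filter.Tendsto ω Filter.atTop Filter.atTop ∧ ∀ N τ : ℕ, τ ≤ ω N →
      ∀ x : Fin τ → ℂ, ∃ T : Finset ℕ, T ⊆ odds N (ω N * N) ∧ T.card ≤ τ ∧
      ∀ S : Finset ℕ, S ⊆ odds N (ω N * N) → S.card ≤ ω N → Disjoint S T →
        Independent x S (ω N) ((ω N : ℝ) ^ N)) := by
  classical
  have hZ : ∀ z : ℂ, IsAlgebraic ℚ z → IsAlgebraic ℤ z := fun z hz => by
    exact (IsFractionRing.isAlgebraic_iff ℤ ℚ ℂ).2 hz
  have hmov : ∀ {t : ℕ} {x : Fin t → ℂ} {S : Finset ℕ} {D : ℕ} {H : ℝ},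
      Independent (Sum.elim (fun i : Fin 0 => (i.elim0 : ℂ)) x) S D H → Independent x S D H := by
    intro t x S D H h P hPD hPC hP0 y
    have h6 := h (MvPolynomial.rename (Sum.map Sum.inr id) P)
      ((MvPolynomial.totalDegree_rename_le _ _).trans hPD)
      (height_rename _ (Sum.inr_injective.sumMap Function.injective_id) hPC) (by
        rw [MvPolynomial.aeval_rename, ← hP0]
        congr 2
        funext i
        rcases i with i | i <;> rfl) y
    rw [MvPolynomial.aeval_rename] at h6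
    rw [← h6]
    congr 2
    funext i
    rcases i with i | i <;> rfl
  have h2 : ∀ (m κ t D : ℕ) (C : ℝ), ∃ N₀ : ℕ, ∀ N : ℕ, N₀ ≤ N → ∀ x : Fin t → ℂ, AlgebraicIndependent ℤ x →
      ∃ T : Finset ℕ, T ⊆ odds N (κ * N) ∧ T.card ≤ t ∧
      ∀ S : Finset ℕ, S ⊆ odds N (κ * N) → S.card ≤ m + 1 → Disjoint S T →
      ∀ P : MvPolynomial (Fin t ⊕ S) ℤ, P ≠ 0 → P.totalDegree ≤ D → (∀ m, |((P.coeff m : ℤ) : ℝ)| ≤ C ^ N) →
        MvPolynomial.aeval (Sum.elim x fun n : S => ((ratio n : ℝ) : ℂ)) P ≠ 0 := by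
    intro m κ t D C
    obtain ⟨N₀, h0⟩ := main m κ 0 t D C (fun i => i.elim0) (fun i => i.elim0)
    refine ⟨N₀, fun N hN x hx => ?_⟩
    obtain ⟨T, h1, h2, -, h4⟩ := h0 N hN id Function.injective_id x
    refine ⟨T, h1, h2, fun S hS hSc hST P hP hPD hPC hP0 => hP ?_⟩
    exact zero_of_trivial hx (hmov (h4 S hS hSc hST) P hPD hPC hP0)
  refine ⟨fun m κ a t D C α hα => main m κ a t D C α fun i => hZ _ (hα i), ?_, ?_, ?_⟩
  · intro m κ t D C
    obtain ⟨N₀, h0⟩ := h2 m κ t D C
    exact ⟨N₀, fun N hN x hx => h0 N hN x (hx.restrictScalars (RingHom.injective_int _))⟩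
  · intro m κ D C
    obtain ⟨N₀, h0⟩ := h2 m κ 1 D C
    exact ⟨N₀, fun N hN => h0 N hN _ pi_indep⟩
  · set p : ℕ → ℕ → Prop := fun m N => ∀ t : ℕ, t ≤ m → ∀ x : Fin t → ℂ,
      ∃ T : Finset ℕ, T ⊆ odds N (m * N) ∧ T.card ≤ t ∧
      ∀ S : Finset ℕ, S ⊆ odds N (m * N) → S.card ≤ m → Disjoint S T →
        Independent x S m ((m : ℝ) ^ N) with hp
    have hp0 : ∀ N, p 0 N := by
      intro N t _ x
      refine ⟨∅, Finset.empty_subset _, by simp, fun S _ hS _ => ?_⟩
      have hS0 : S = ∅ := Finset.card_eq_zero.1 (by omega)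
      subst hS0
      exact IndX_empty x (fun n => ((ratio n : ℝ) : ℂ)) _ _
    have hpm : ∀ m, ∃ N₀, ∀ N, N₀ ≤ N → p m N := by
      intro m
      choose N₀ h0 using fun t => main m m 0 t m (m : ℝ) (fun i => i.elim0) (fun i => i.elim0)
      refine ⟨∑ t ∈ Finset.range (m + 1), N₀ t, fun N hN t ht x => ?_⟩
      have h2 : N₀ t ≤ N := (Finset.single_le_sum (f := N₀) (fun _ _ => Nat.zero_le _)
        (Finset.mem_range.2 (by omega))).trans hN
      obtain ⟨T, h3, h4, -, h5⟩ := h0 t N h2 id Function.injective_id x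
      exact ⟨T, h3, h4, fun S hS hSc hST => hmov (h5 S hS (by omega) hST)⟩
    refine ⟨fun N => Nat.findGreatest (fun m => p m N) N, ?_, fun N t ht x => ?_⟩
    · refine Filter.tendsto_atTop.2 fun m => ?_
      obtain ⟨N₀, h2⟩ := hpm m
      refine Filter.eventually_atTop.2 ⟨max m N₀, fun N hN => ?_⟩
      exact Nat.le_findGreatest (le_of_max_le_left hN) (h2 N (le_of_max_le_right hN))
    · have h2 : p (Nat.findGreatest (fun m => p m N) N) N :=
        Nat.findGreatest_spec (P := fun m => p m N) (Nat.zero_le N) (hp0 N)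
      exact h2 t ht x

end Pool.Agent.Results.MP_f1a024_nt.RatiosOverConstants
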